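import Pool.Agent.helper29.PQ.Spec

/-! Row pq:D1: the set `S` of primes in one residue class with `π(q)` in one residue class. -/

namespace Pool.Agent.helper33.PQ

open Finset Pool.Agent.helper29.PQ

/-- the prime with index `k` (`π = k`), `k ≥ 1`. -/
noncomputable def D1_f (m r i : ℕ) : ℕ := Nat.nth Nat.Prime (i * m + r - 1)

lemma D1_prime (m r i : ℕ) : (D1_f m r i).Prime := Nat.prime_nth_prime _

lemma D1_pi (m r i : ℕ) (hr : 0 < r) : Nat.primeCounting (D1_f m r i) = i * m + r := by
  unfold Nat.primeCounting Nat.primeCounting'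
  rw [Nat.count_succ]
  have h1 : Nat.count Nat.Prime (D1_f m r i) = i * m + r - 1 := Nat.primeCounting'_nth_eq _
  rw [h1, if_pos (D1_prime m r i)]
  omega

lemma D1_inj (m r : ℕ) (hm : 0 < m) (hr : 0 < r) : Function.Injective (D1_f m r) := by
  intro i j hij
  have h1 := D1_pi m r i hr
  have h2 := D1_pi m r j hr
  rw [hij, h2] at h1
  have h3 : j * m = i * m := by omega
  exact (Nat.eq_of_mul_eq_mul_right hm h3).symm

lemma D1_le (m r i Y : ℕ) (hr : 0 < r) (h : i * m + r ≤ Nat.primeCounting Y) :
    D1_f m r i ≤ Y := by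
  have h1 : i * m + r - 1 < Nat.count Nat.Prime (Y + 1) := by
    have h2 : Nat.primeCounting Y = Nat.count Nat.Prime (Y + 1) := rfl
    omega
  have h3 : Nat.nth Nat.Prime (i * m + r - 1) < Y + 1 := Nat.nth_lt_of_lt_count h1
  exact Nat.lt_succ_iff.1 h3

theorem D1 : D1_stmt := by
  intro w hw
  set m := primorial w with hmdef
  have hm : 0 < m := primorial_pos w
  obtain ⟨Y₀, hY₀⟩ := (Filter.tendsto_atTop.1 Nat.tendsto_primeCounting
    (2 * m * (w + m))).exists_forall_of_atTop
  refine ⟨Y₀, fun Y hY n₀ => ?_⟩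
  have hP : 2 * m * (w + m) ≤ Nat.primeCounting Y := hY₀ Y hY
  set P := Nat.primeCounting Y with hPdef
  set r := m - n₀ % m with hrdef
  have hn0 : n₀ % m < m := Nat.mod_lt _ hm
  have hr : 0 < r := by omega
  have hrm : r ≤ m := by omega
  set f := D1_f m r with hf
  have hfinj : Function.Injective f := D1_inj m r hm hr
  set I := (range (P / m)).filter (fun i => w < f i) with hI
  -- size of I
  have hbad : #((range (P / m)).filter (fun i => ¬ w < f i)) ≤ w := by
    have h1 : #(((range (P / m)).filter (fun i => ¬ w < f i)).image f) ≤ #(Ioc 0 w) := by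
      apply card_le_card
      intro q hq
      rw [mem_image] at hq
      obtain ⟨i, hi, rfl⟩ := hq
      rw [mem_filter] at hi
      rw [mem_Ioc]
      exact ⟨(D1_prime m r i).pos, by omega⟩
    rw [card_image_of_injective _ hfinj, Nat.card_Ioc] at h1
    omega
  have hIcard : P / m ≤ #I + w := by
    have h1 := card_filter_add_card_filter_not (s := range (P / m)) (fun i => w < f i)
    rw [card_range] at h1
    have h2 : #I = #((range (P / m)).filter (fun i => w < f i)) := rfl
    omega
  -- pigeonhole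
  obtain ⟨b, hb, hcard⟩ := exists_le_card_fiber_of_mul_le_card_of_maps_to (s := I) (t := range m)
    (f := fun i => f i % m) (n := #I / m)
    (fun i _ => mem_range.2 (Nat.mod_lt _ hm)) ⟨0, mem_range.2 hm⟩
    (by rw [card_range]; exact Nat.mul_div_le _ _)
  set F := I.filter (fun i => f i % m = b) with hF
  have e1 : m * (#I / m) + #I % m = #I := Nat.div_add_mod _ _
  have e2 : #I % m < m := Nat.mod_lt _ hm
  have e3 : m * (P / m) + P % m = P := Nat.div_add_mod _ _
  have e4 : P % m < m := Nat.mod_lt _ hm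
  have hS : #(F.image f) = #F := card_image_of_injective _ hfinj
  have hcard' : #I / m ≤ #F := hcard
  -- main inequality
  have k1 : P / m ≤ m * #F + m + w := by
    have : m * (#I / m) ≤ m * #F := Nat.mul_le_mul_left _ hcard'
    omega
  have k2 : m * (P / m) ≤ m * (m * #F + m + w) := Nat.mul_le_mul_left _ k1
  have k3 : P ≤ m * (m * #F + m + w) + m := by omega
  have k1' : P / m + 1 ≤ m * #F + m + w := by
    have : m * (#I / m) ≤ m * #F := Nat.mul_le_mul_left _ hcard'
    omega
  have k2' : m * (P / m + 1) ≤ m * (m * #F + m + w) := Nat.mul_le_mul_left _ k1'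
  have k3' : P ≤ m * (m * #F + m + w) := by
    have : m * (P / m + 1) = m * (P / m) + m := by ring
    omega
  have k4 : m * (m * #F + m + w) = m ^ 2 * #F + m * (w + m) := by ring
  have k5 : 2 * m * (w + m) = 2 * (m * (w + m)) := by ring
  have hmain : P ≤ 2 * m ^ 2 * #F := by
    have : 2 * m ^ 2 * #F = 2 * (m ^ 2 * #F) := by ring
    omega
  have hFpos : 0 < #F := by
    rcases Nat.eq_zero_or_pos (#F) with h0 | h0
    · rw [h0] at hmain
      have : 0 < m * (w + m) := Nat.mul_pos hm (by omega)
      omega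
    · exact h0
  -- facts on elements
  have hmem : ∀ i ∈ F, w < f i ∧ i < P / m ∧ f i % m = b := by
    intro i hi
    rw [hF, mem_filter, hI, mem_filter, mem_range] at hi
    exact ⟨hi.1.2, hi.1.1, hi.2⟩
  refine ⟨b, F.image f, mem_range.1 hb, ?_, ?_, ?_⟩
  · obtain ⟨i, hi⟩ := card_pos.1 hFpos
    obtain ⟨h1, -, h3⟩ := hmem i hi
    rw [← h3]
    have hnd : ¬ f i ∣ m := by
      intro hd
      have := (Nat.Prime.dvd_primorial_iff (D1_prime m r i)).1 hd
      have h5 : f i = D1_f m r i := rfl
      omega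
    have hc : Nat.Coprime (f i) m := (Nat.Prime.coprime_iff_not_dvd (D1_prime m r i)).2 hnd
    have := Nat.ModEq.gcd_eq (Nat.mod_modEq (f i) m)
    unfold Nat.Coprime at hc ⊢
    rw [this, hc]
  · intro q hq
    rw [mem_image] at hq
    obtain ⟨i, hi, rfl⟩ := hq
    obtain ⟨h1, h2, h3⟩ := hmem i hi
    have h4 : i * m + r ≤ P := by
      have : (i + 1) * m ≤ P / m * m := Nat.mul_le_mul_right _ h2
      have h5 : (i + 1) * m = i * m + m := by ring
      have h6 : P / m * m = m * (P / m) := by ring
      omega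
    refine ⟨D1_prime m r i, by omega, D1_le m r i Y hr h4, h3, ?_⟩
    have h5 : Nat.primeCounting (f i) = i * m + r := D1_pi m r i hr
    rw [h5]
    have h6 : n₀ % m + m * (n₀ / m) = n₀ := Nat.mod_add_div _ _
    have h7 : i * m + r + n₀ = m * (i + 1 + n₀ / m) := by
      have : m * (i + 1 + n₀ / m) = i * m + m + m * (n₀ / m) := by ring
      omega
    rw [h7]
    exact Nat.mul_mod_right _ _
  · rw [hS]
    exact hmain

end Pool.Agent.helper33.PQ
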